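import Pool.Agent.Lib.MP_576b63_co.Enum

set_option autoImplicit false

namespace Pool.Agent.Results.MP_576b63_co.Avoid4

open Pool.MP_576b63_co

/-- The sequence `a`, indexed by the ordered set `ι`, contains a `k`-AP: there are indices
`i 0 < i 1 < ... < i (k - 1)` such that `a (i 0), a (i 1), ..., a (i (k - 1))` is an arithmetic
progression with nonzero common difference `d` (positive or negative). -/
def ContainsAP {ι : Type} [Preorder ι] (a : ι → ℤ) (k : ℕ) : Prop :=
  ∃ i : Fin k → ι, StrictMono i ∧ ∃ x d : ℤ, d ≠ 0 ∧ ∀ t : Fin k, a (i t) = x + (t : ℕ) * d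

/-- There is a permutation `a 1, a 2, a 3, ...` of the positive integers that contains no `4`-AP.
Moreover no three terms `a i > a j > a l` with `i < j < l` are in arithmetic progression. -/
theorem result : ∃ a : ℕ+ ≃ ℕ+,
    ¬ ContainsAP (fun i => ((a i : ℕ) : ℤ)) 4 ∧
    ∀ i j l : ℕ+, i < j → j < l → a l < a j → a j < a i → (a i : ℕ) + a l ≠ 2 * a j := by
  obtain ⟨a, ha⟩ := exists_enum (fun x : ℕ+ => F x)
    (fun x y h => PNat.coe_injective (F_injective h))
  have ha' : ∀ {i j : ℕ+}, i < j → F (a i) < F (a j) := fun h => ha h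
  have hdec : ∀ i j l : ℕ+, i < j → j < l → a l < a j → a j < a i →
      (a i : ℕ) + a l ≠ 2 * a j := by
    intro i j l hij hjl h1 h2 h
    have h1' : (a l : ℕ) < a j := h1
    have h2' : (a j : ℕ) < a i := h2
    obtain ⟨d, hd⟩ : ∃ d : ℕ, (a j : ℕ) = a l + d := ⟨a j - a l, by omega⟩
    have hi : (a i : ℕ) = a l + d + d := by omega
    have c1 := ha' hij
    have c2 := ha' hjl
    rw [hi, hd] at c1
    rw [hd] at c2
    exact no_dec (by omega) c2 c1
  refine ⟨a, ?_, hdec⟩
  rintro ⟨i, hi, x, d, hd, h⟩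
  have h0 := h 0
  have h1 := h 1
  have h2 := h 2
  have h3 := h 3
  have v3 : ((3 : Fin 4) : ℕ) = 3 := rfl
  simp only [Fin.val_zero, Fin.val_one, Nat.cast_zero, Nat.cast_one, zero_mul, one_mul, add_zero,
    Fin.val_two, Nat.cast_ofNat, v3] at h0 h1 h2 h3
  have i01 : i 0 < i 1 := hi (by decide)
  have i12 : i 1 < i 2 := hi (by decide)
  have i23 : i 2 < i 3 := hi (by decide)
  rcases lt_or_gt_of_ne hd with hneg | hpos
  · refine hdec (i 0) (i 1) (i 2) i01 i12 ?_ ?_ ?_
    · have : (a (i 2) : ℕ) < a (i 1) := by omega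
      exact this
    · have : (a (i 1) : ℕ) < a (i 0) := by omega
      exact this
    · omega
  · obtain ⟨D, hD⟩ : ∃ D : ℕ, (D : ℤ) = d := ⟨d.toNat, by omega⟩
    have e1 : (a (i 1) : ℕ) = a (i 0) + D := by omega
    have e2 : (a (i 2) : ℕ) = a (i 0) + D + D := by omega
    have e3 : (a (i 3) : ℕ) = a (i 0) + D + D + D := by omega
    have c1 := ha' i01
    have c2 := ha' i12
    have c3 := ha' i23
    rw [e1] at c1
    rw [e1, e2] at c2
    rw [e2, e3] at c3
    exact no_inc (by omega) c1 c2 c3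

end Pool.Agent.Results.MP_576b63_co.Avoid4
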