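import Pool.Agent.Lib.MP_576b63_co.Enum
import Pool.Agent.Lib.MP_576b63_co.ZInt

set_option autoImplicit false

namespace Pool.Agent.Results.MP_576b63_co.IntegersNearlyAvoid4

open Pool.MP_576b63_co

/-- The `k`-AP `x, x + d, ..., x + (k - 1) d` is contained in the sequence `a`: its terms occur in
this order along the sequence, at the indices `i 0 < i 1 < ... < i (k - 1)`. (An increasing
progression is the case `0 < d`, a decreasing one the case `d < 0`.) -/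
def ContainsAPFrom (a : ℕ+ → ℤ) (k : ℕ) (x d : ℤ) : Prop :=
  ∃ i : Fin k → ℕ+, StrictMono i ∧ ∀ t : Fin k, a (i t) = x + (t : ℕ) * d

/-- For every `K` there is a permutation `a 1, a 2, a 3, ...` of all integers such that
* it contains no `5`-AP;
* for each `4`-AP `x, x + d, x + 2 d, x + 3 d` contained in it there is `w ≥ K` such that `2 ^ w`
  divides `d` and `|d| ≤ 2 ^ (2 ^ (w + 2))`; moreover exactly one of the numbers `x` and `x + 2 d`
  is negative;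
* hence, for every `m`, only finitely many of the `4`-APs contained in it have a common difference
  that is not divisible by `2 ^ m`. -/
theorem result (K : ℕ) : ∃ a : ℕ+ ≃ ℤ,
    (∀ x d : ℤ, d ≠ 0 → ¬ ContainsAPFrom a 5 x d) ∧
    (∀ x d : ℤ, d ≠ 0 → ContainsAPFrom a 4 x d →
      (∃ w : ℕ, K ≤ w ∧ 2 ^ w ∣ d ∧ |d| ≤ 2 ^ 2 ^ (w + 2)) ∧ (x < 0 ↔ 0 ≤ x + 2 * d)) ∧
    (∀ m : ℕ, {q : ℤ × ℤ | q.2 ≠ 0 ∧ ContainsAPFrom a 4 q.1 q.2 ∧ ¬ 2 ^ m ∣ q.2}.Finite) := by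
  obtain ⟨a, ha⟩ := exists_enum (fun z : ℤ => ZZ.R K 0 1 z) (ZZ.R_injective (by norm_num))
  -- the ranks along a progression
  have hrank : ∀ (k : ℕ) (x d : ℤ), ContainsAPFrom a k x d → ∀ t : ℕ, t + 1 < k →
      ZZ.R K 0 1 (x + t * d) < ZZ.R K 0 1 (x + (t + 1 : ℕ) * d) := by
    rintro k x d ⟨i, hi, h⟩ t ht
    have h1 := h ⟨t, by omega⟩
    have h2 := h ⟨t + 1, ht⟩
    have h3 : i ⟨t, by omega⟩ < i ⟨t + 1, ht⟩ := hi (by simp [Fin.lt_def])
    have h4 := ha h3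
    simp only [h1, h2] at h4
    exact h4
  -- the terms of a four term progression
  have four : ∀ x d : ℤ, d ≠ 0 → ContainsAPFrom a 4 x d → ∃ s w e : ℕ,
      d.natAbs = 2 ^ w * (2 * e + 1) ∧ ZZ.kk K s ≤ w ∧ d.natAbs ≤ 2 * ZZ.S K s ∧
        (x < 0 ↔ 0 ≤ x + 2 * d) := by
    intro x d hd hx
    have c0 := hrank 4 x d hx 0 (by norm_num)
    have c1 := hrank 4 x d hx 1 (by norm_num)
    have c2 := hrank 4 x d hx 2 (by norm_num)
    push_cast at c0 c1 c2
    norm_num at c0 c1 c2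
    rcases lt_or_gt_of_ne hd with hneg | hpos
    · obtain ⟨D, hD⟩ : ∃ D : ℕ, d = -(D : ℤ) := ⟨(-d).toNat, by omega⟩
      subst hD
      rw [ZZ.R_refl 0 1, ZZ.R_refl 0 1] at c0 c1 c2
      obtain ⟨s, w, e, h1, h2, h3, h4, h5⟩ := ZZ.inc4 (K := K) (c := 1) (c' := 0) (z := -x - 1)
        (D := D) (by norm_num) (by omega)
        (by rw [show -x - 1 + (D : ℤ) = -(x + -(D : ℤ)) - 1 by ring]; exact c0)
        (by
          rw [show -x - 1 + (D : ℤ) = -(x + -(D : ℤ)) - 1 by ring,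
            show -x - 1 + 2 * (D : ℤ) = -(x + 2 * -(D : ℤ)) - 1 by ring]
          exact c1)
        (by
          rw [show -x - 1 + 2 * (D : ℤ) = -(x + 2 * -(D : ℤ)) - 1 by ring,
            show -x - 1 + 3 * (D : ℤ) = -(x + 3 * -(D : ℤ)) - 1 by ring]
          exact c2)
      exact ⟨s, w, e, by omega, h2, by omega, by omega⟩
    · obtain ⟨D, hD⟩ : ∃ D : ℕ, d = (D : ℤ) := ⟨d.toNat, by omega⟩
      subst hD
      obtain ⟨s, w, e, h1, h2, h3, h4, h5⟩ := ZZ.inc4 (K := K) (c := 0) (c' := 1) (z := x)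
        (D := D) (by norm_num) (by omega) c0 c1 c2
      exact ⟨s, w, e, by omega, h2, by omega, by omega⟩
  refine ⟨a, ?_, ?_, ?_⟩
  · intro x d hd hx
    have c0 := hrank 5 x d hx 0 (by norm_num)
    have c1 := hrank 5 x d hx 1 (by norm_num)
    have c2 := hrank 5 x d hx 2 (by norm_num)
    have c3 := hrank 5 x d hx 3 (by norm_num)
    push_cast at c0 c1 c2 c3
    norm_num at c0 c1 c2 c3
    rcases lt_or_gt_of_ne hd with hneg | hpos
    · obtain ⟨D, hD⟩ : ∃ D : ℕ, d = -(D : ℤ) := ⟨(-d).toNat, by omega⟩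
      subst hD
      rw [ZZ.R_refl 0 1, ZZ.R_refl 0 1] at c0 c1 c2 c3
      have e1 : -x - 1 + (D : ℤ) = -(x + -(D : ℤ)) - 1 := by ring
      have e2 : -x - 1 + 2 * (D : ℤ) = -(x + 2 * -(D : ℤ)) - 1 := by ring
      have e3 : -x - 1 + 3 * (D : ℤ) = -(x + 3 * -(D : ℤ)) - 1 := by ring
      have e4 : -x - 1 + 4 * (D : ℤ) = -(x + 4 * -(D : ℤ)) - 1 := by ring
      exact ZZ.inc5 (K := K) (c := 1) (c' := 0) (z := -x - 1) (D := D) (by norm_num) (by omega)
        (by rw [e1]; exact c0) (by rw [e1, e2]; exact c1) (by rw [e2, e3]; exact c2)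
        (by rw [e3, e4]; exact c3)
    · obtain ⟨D, hD⟩ : ∃ D : ℕ, d = (D : ℤ) := ⟨d.toNat, by omega⟩
      subst hD
      exact ZZ.inc5 (K := K) (c := 0) (c' := 1) (z := x) (D := D) (by norm_num) (by omega)
        c0 c1 c2 c3
  · intro x d hd hx
    obtain ⟨s, w, e, h1, h2, hb, hx2⟩ := four x d hd hx
    have h3 : K ≤ w := le_trans (ZZ.kk_mono (Nat.zero_le s)) h2
    have h4 : 2 ^ w ∣ d.natAbs := h1 ▸ Dvd.intro _ rfl
    have h5 : d.natAbs ≤ 2 ^ 2 ^ (w + 2) := by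
      refine hb.trans ((ZZ.two_S_le s).trans ?_)
      exact Nat.pow_le_pow_right (by norm_num) (Nat.pow_le_pow_right (by norm_num) (by omega))
    refine ⟨⟨w, h3, by exact_mod_cast Int.natCast_dvd.2 h4, ?_⟩, hx2⟩
    rw [Int.abs_eq_natAbs]
    exact_mod_cast h5
  · intro m
    refine (((Set.finite_Icc (-(4 * (ZZ.S K (m + 1) : ℤ))) (4 * ZZ.S K (m + 1))).prod
      (Set.finite_Icc (-(4 * (ZZ.S K (m + 1) : ℤ))) (4 * ZZ.S K (m + 1))))).subset ?_
    rintro ⟨x, d⟩ ⟨hd, hx, hm⟩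
    obtain ⟨s, w, e, h1, h2, h3, h4⟩ := four x d hd hx
    have h5 : w < m := by
      by_contra h6
      refine hm ?_
      have h7 : 2 ^ m ∣ d.natAbs := h1 ▸ (pow_dvd_pow 2 (not_lt.1 h6)).mul_right _
      exact_mod_cast Int.natCast_dvd.2 h7
    have h6 : s ≤ m + 1 := by
      rcases s with _ | s
      · omega
      · have h7 := ZZ.lt_S (K := K) s
        simp only [ZZ.kk] at h2
        omega
    have h7 : ZZ.S K s ≤ ZZ.S K (m + 1) := ZZ.S_strictMono.monotone h6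
    simp only [Set.mem_prod, Set.mem_Icc]
    omega

end Pool.Agent.Results.MP_576b63_co.IntegersNearlyAvoid4
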